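import Pool.Agent.MP_f96ee4_an.Steps

/-!
The topological horseshoe: orbits with prescribed itinerary.
-/

open Real Set

namespace Pool.Agent.MP_f96ee4_an

lemma exists_sub_up (g : ℝ → ℝ) {a b lo hi : ℝ} (hab : a ≤ b) (hg : Continuous g)
    (hlh : lo ≤ hi) (h1 : g a ≤ lo) (h2 : hi ≤ g b) :
    ∃ a' b', a ≤ a' ∧ a' ≤ b' ∧ b' ≤ b ∧ g a' = lo ∧ g b' = hi ∧
      ∀ t ∈ Icc a' b', lo ≤ g t ∧ g t ≤ hi := by
  have hS : IsCompact (Icc a b ∩ g ⁻¹' {hi}) :=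
    isCompact_Icc.inter_right (isClosed_singleton.preimage hg)
  have hSn : (Icc a b ∩ g ⁻¹' {hi}).Nonempty := by
    obtain ⟨t, ht, hgt⟩ := intermediate_value_Icc hab hg.continuousOn
      (show hi ∈ Icc (g a) (g b) from ⟨by linarith, h2⟩)
    exact ⟨t, ht, hgt⟩
  obtain ⟨b', ⟨hb', hgb'⟩, hmin⟩ := hS.exists_isLeast hSn
  have hgb : g b' = hi := hgb'
  have hS2 : IsCompact (Icc a b' ∩ g ⁻¹' {lo}) :=
    isCompact_Icc.inter_right (isClosed_singleton.preimage hg)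
  have hSn2 : (Icc a b' ∩ g ⁻¹' {lo}).Nonempty := by
    obtain ⟨t, ht, hgt⟩ := intermediate_value_Icc hb'.1 hg.continuousOn
      (show lo ∈ Icc (g a) (g b') from ⟨h1, by linarith⟩)
    exact ⟨t, ht, hgt⟩
  obtain ⟨a', ⟨ha', hga'⟩, hmax⟩ := hS2.exists_isGreatest hSn2
  have hga : g a' = lo := hga'
  refine ⟨a', b', ha'.1, ha'.2, hb'.2, hga, hgb, fun t ht => ⟨?_, ?_⟩⟩
  · by_contra hlt
    push Not at hlt
    obtain ⟨r, hr, hgr⟩ := intermediate_value_Icc ht.2 hg.continuousOn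
      (show lo ∈ Icc (g t) (g b') from ⟨hlt.le, by linarith⟩)
    have hr2 : r ≤ a' := hmax ⟨⟨by linarith [ha'.1, ht.1, hr.1], hr.2⟩, hgr⟩
    have hrt : r = t := le_antisymm (by linarith [ht.1]) hr.1
    rw [hrt] at hgr
    linarith
  · by_contra hlt
    push Not at hlt
    obtain ⟨r, hr, hgr⟩ := intermediate_value_Icc ht.1 hg.continuousOn
      (show hi ∈ Icc (g a') (g t) from ⟨by linarith, hlt.le⟩)
    have hr2 : b' ≤ r := hmin ⟨⟨by linarith [ha'.1, hr.1], by linarith [ht.2, hr.2, hb'.2]⟩, hgr⟩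
    have hrt : r = t := le_antisymm hr.2 (by linarith [ht.2])
    rw [hrt] at hgr
    linarith

lemma exists_sub_down (g : ℝ → ℝ) {a b lo hi : ℝ} (hab : a ≤ b) (hg : Continuous g)
    (hlh : lo ≤ hi) (h1 : hi ≤ g a) (h2 : g b ≤ lo) :
    ∃ a' b', a ≤ a' ∧ a' ≤ b' ∧ b' ≤ b ∧ g a' = hi ∧ g b' = lo ∧
      ∀ t ∈ Icc a' b', lo ≤ g t ∧ g t ≤ hi := by
  obtain ⟨a', b', e1, e2, e3, e4, e5, e6⟩ := exists_sub_up (fun t => - g t) hab hg.neg
    (neg_le_neg hlh) (by linarith) (by linarith)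
  refine ⟨a', b', e1, e2, e3, by linarith, by linarith, fun t ht => ?_⟩
  obtain ⟨e7, e8⟩ := e6 t ht
  exact ⟨by linarith, by linarith⟩

/-- Lower end of the `u`-range of the two boxes (`false` is `A`, `true` is `J`). -/
noncomputable def lo (i : Bool) : ℝ := if i then 1627 / 1000 else 79 / 50

/-- Upper end of the `u`-range of the two boxes. -/
noncomputable def hi (i : Bool) : ℝ := if i then 817 / 500 else 323 / 200

/-- Return times of the two boxes. -/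
def tau (i : Bool) : ℕ := if i then 14 else 7

/-- The two boxes. -/
def Box (i : Bool) : Set (ℝ × ℝ × ℝ) :=
  {p | |p.1| ≤ 1 / 100000 ∧ (lo i ≤ p.2.1 ∧ p.2.1 ≤ hi i) ∧ -(9 / 20) ≤ p.2.2 ∧ p.2.2 ≤ -(3 / 10)}

lemma lo_le_hi (i : Bool) : lo i ≤ hi i := by
  cases i <;> norm_num [lo, hi]

lemma cover {s : ℝ} (hs : 200000 ≤ s) (i : Bool) {p : ℝ × ℝ × ℝ} (hp : p ∈ Box i) :
    |((F s)^[tau i] p).1| ≤ 1 / 100000 ∧ -(9 / 20) ≤ ((F s)^[tau i] p).2.2 ∧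
      ((F s)^[tau i] p).2.2 ≤ -(3 / 10) ∧
      (p.2.1 = lo i → ∀ j, hi j ≤ ((F s)^[tau i] p).2.1) ∧
      (p.2.1 = hi i → ∀ j, ((F s)^[tau i] p).2.1 ≤ lo j) := by
  obtain ⟨X, u, w⟩ := p
  obtain ⟨h1, ⟨h2, h3⟩, h4, h5⟩ := hp
  cases i
  · simp only [lo, hi, Bool.false_eq_true, if_false] at h2 h3
    obtain ⟨X', u', w', e, f1, f2, f3, f4⟩ := seven hs h1 h2 h3 h4 h5
    rw [tau, if_neg (by decide), e]
    obtain ⟨g1, g2⟩ := abs_le.mp f2
    refine ⟨f1, f3, f4, fun h j => ?_, fun h j => ?_⟩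
    · simp only [lo, Bool.false_eq_true, if_false] at h
      subst h
      cases j <;> norm_num [hi] <;> linarith
    · simp only [hi, Bool.false_eq_true, if_false] at h
      subst h
      cases j <;> norm_num [lo] <;> linarith
  · simp only [lo, hi, if_true] at h2 h3
    obtain ⟨X', u', w', e, f1, f2, f3, f4⟩ := fourteen hs h1 h2 h3 h4 h5
    rw [tau, if_pos rfl, e]
    obtain ⟨g1, g2⟩ := abs_le.mp f2
    refine ⟨f1, f3, f4, fun h j => ?_, fun h j => ?_⟩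
    · simp only [lo, if_true] at h
      subst h
      cases j <;> norm_num [hi] <;> linarith
    · simp only [hi, if_true] at h
      subst h
      cases j <;> norm_num [lo] <;> linarith

/-- The times at which an itinerary visits the boxes. -/
def T (i : ℕ → Bool) (k : ℕ) : ℕ := ∑ j ∈ Finset.range k, tau (i j)

lemma T_succ (i : ℕ → Bool) (k : ℕ) : T i (k + 1) = T i k + tau (i k) :=
  Finset.sum_range_succ _ _

/-- The start path. -/
noncomputable def G (s : ℝ) (i : ℕ → Bool) (k : ℕ) (t : ℝ) : ℝ × ℝ × ℝ :=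
  (F s)^[T i k] (0, t, -(2 / 5))

lemma G_succ (s : ℝ) (i : ℕ → Bool) (k : ℕ) (t : ℝ) :
    G s i (k + 1) t = (F s)^[tau (i k)] (G s i k t) := by
  rw [G, G, T_succ, Nat.add_comm, Function.iterate_add_apply]

lemma continuous_G (s : ℝ) (i : ℕ → Bool) (k : ℕ) : Continuous (G s i k) :=
  ((continuous_F s).iterate _).comp (by fun_prop)

/-- The path restricted to `[a, b]` crosses box `i k` at time `T i k`. -/
def Cross (s : ℝ) (i : ℕ → Bool) (k : ℕ) (a b : ℝ) : Prop :=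
  a ≤ b ∧ (∀ t ∈ Icc a b, G s i k t ∈ Box (i k)) ∧
    (((G s i k a).2.1 = lo (i k) ∧ (G s i k b).2.1 = hi (i k)) ∨
      ((G s i k a).2.1 = hi (i k) ∧ (G s i k b).2.1 = lo (i k)))

lemma cross_zero (s : ℝ) (i : ℕ → Bool) : Cross s i 0 (lo (i 0)) (hi (i 0)) := by
  refine ⟨lo_le_hi _, fun t ht => ?_, Or.inl ⟨rfl, rfl⟩⟩
  change |(0 : ℝ)| ≤ _ ∧ (lo (i 0) ≤ t ∧ t ≤ hi (i 0)) ∧ _ ∧ _
  refine ⟨by norm_num, ht, ?_, ?_⟩ <;> norm_num [G, T]

lemma cross_succ {s : ℝ} (hs : 200000 ≤ s) (i : ℕ → Bool) (k : ℕ) {a b : ℝ}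
    (h : Cross s i k a b) : ∃ a' b', a ≤ a' ∧ b' ≤ b ∧ Cross s i (k + 1) a' b' := by
  obtain ⟨hab, hbox, hor⟩ := h
  have hgc : Continuous fun t => (G s i (k + 1) t).2.1 :=
    (continuous_fst.comp continuous_snd).comp (continuous_G s i (k + 1))
  have hca := cover hs (i k) (hbox a ⟨le_rfl, hab⟩)
  have hcb := cover hs (i k) (hbox b ⟨hab, le_rfl⟩)
  rw [← G_succ] at hca hcb
  rcases hor with ⟨ha, hb⟩ | ⟨ha, hb⟩
  · obtain ⟨a', b', e1, e2, e3, e4, e5, e6⟩ := exists_sub_down _ hab hgc (lo_le_hi (i (k + 1)))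
      (hca.2.2.2.1 ha _) (hcb.2.2.2.2 hb _)
    refine ⟨a', b', e1, e3, e2, fun t ht => ?_, Or.inr ⟨e4, e5⟩⟩
    have hct := cover hs (i k) (hbox t ⟨by linarith [ht.1], by linarith [ht.2]⟩)
    rw [← G_succ] at hct
    exact ⟨hct.1, e6 t ht, hct.2.1, hct.2.2.1⟩
  · obtain ⟨a', b', e1, e2, e3, e4, e5, e6⟩ := exists_sub_up _ hab hgc (lo_le_hi (i (k + 1)))
      (hca.2.2.2.2 ha _) (hcb.2.2.2.1 hb _)
    refine ⟨a', b', e1, e3, e2, fun t ht => ?_, Or.inl ⟨e4, e5⟩⟩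
    have hct := cover hs (i k) (hbox t ⟨by linarith [ht.1], by linarith [ht.2]⟩)
    rw [← G_succ] at hct
    exact ⟨hct.1, e6 t ht, hct.2.1, hct.2.2.1⟩

/-- Every itinerary is realised. -/
theorem exists_orbit {s : ℝ} (hs : 200000 ≤ s) (i : ℕ → Bool) :
    ∃ p : ℝ × ℝ × ℝ, ∀ k, (F s)^[T i k] p ∈ Box (i k) := by
  choose f g hf hg hfg using fun (k : ℕ) (x : {q : ℝ × ℝ // Cross s i k q.1 q.2}) =>
    cross_succ hs i k x.2
  let I : ∀ k : ℕ, {q : ℝ × ℝ // Cross s i k q.1 q.2} := fun k =>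
    Nat.rec (motive := fun k => {q : ℝ × ℝ // Cross s i k q.1 q.2})
      ⟨(lo (i 0), hi (i 0)), cross_zero s i⟩ (fun k x => ⟨(f k x, g k x), hfg k x⟩) k
  have hmono : Monotone fun k => (I k).1.1 := monotone_nat_of_le_succ fun k => hf k (I k)
  have hanti : Antitone fun k => (I k).1.2 := antitone_nat_of_succ_le fun k => hg k (I k)
  have hle : (fun k => (I k).1.1) ≤ fun k => (I k).1.2 := fun k => (I k).2.1
  have hmem := hmono.ciSup_mem_iInter_Icc_of_antitone hanti hle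
  rw [mem_iInter] at hmem
  exact ⟨_, fun k => (I k).2.2.1 _ (hmem k)⟩

end Pool.Agent.MP_f96ee4_an
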