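import Pool.Agent.MP_f96ee4_an.Cross

/-!
A bounded orbit that stays away from all periodic sequences.
-/

open Real Set Filter Topology

namespace Pool.Agent.MP_f96ee4_an

/-- The itinerary: `J` at the squares `m²` with `m ≥ 2`, otherwise `A`. -/
noncomputable def itin (k : ℕ) : Bool := by
  classical exact decide (∃ m, 2 ≤ m ∧ k = m ^ 2)

lemma itin_sq {m : ℕ} (hm : 2 ≤ m) : itin (m ^ 2) = true := by
  simp only [itin, decide_eq_true_eq]
  exact ⟨m, hm, rfl⟩

lemma itin_gap {m k : ℕ} (h1 : m ^ 2 < k) (h2 : k < (m + 1) ^ 2) : itin k = false := by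
  simp only [itin, decide_eq_false_iff_not]
  rintro ⟨r, _, rfl⟩
  have h3 : m < r := lt_of_pow_lt_pow_left₀ 2 (Nat.zero_le _) h1
  have h4 : r < m + 1 := lt_of_pow_lt_pow_left₀ 2 (Nat.zero_le _) h2
  omega

lemma T_sq_add {m : ℕ} (hm : 2 ≤ m) (j : ℕ) (hj : j ≤ 2 * m) :
    T itin (m ^ 2 + 1 + j) = T itin (m ^ 2) + 14 + 7 * j := by
  induction j with
  | zero => rw [Nat.add_zero, T_succ, itin_sq hm]; rfl
  | succ j ih =>
    rw [show m ^ 2 + 1 + (j + 1) = (m ^ 2 + 1 + j) + 1 by ring, T_succ, ih (by omega),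
      itin_gap (m := m) (by omega) (by nlinarith)]
    change _ + 7 = _
    ring

lemma le_T (i : ℕ → Bool) (k : ℕ) : k ≤ T i k := by
  induction k with
  | zero => exact Nat.zero_le _
  | succ k ih =>
    rw [T_succ]
    have : 1 ≤ tau (i k) := by cases i k <;> decide
    omega

lemma exists_block (i : ℕ → Bool) (n : ℕ) : ∃ k j, n = j + T i k ∧ j < tau (i k) := by
  induction n with
  | zero => exact ⟨0, 0, rfl, by cases i 0 <;> decide⟩
  | succ n ih =>
    obtain ⟨k, j, h1, h2⟩ := ih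
    by_cases h : j + 1 < tau (i k)
    · exact ⟨k, j + 1, by omega, h⟩
    · refine ⟨k + 1, 0, ?_, by cases i (k + 1) <;> decide⟩
      rw [T_succ]
      omega

lemma isCompact_Box (i : Bool) : IsCompact (Box i) := by
  have : Box i = Icc (-(1 / 100000)) (1 / 100000) ×ˢ (Icc (lo i) (hi i) ×ˢ
      Icc (-(9 / 20)) (-(3 / 10))) := by
    ext ⟨x, y, z⟩
    simp only [Box, mem_ofPred_eq, mem_prod, mem_Icc, abs_le]
  rw [this]
  exact isCompact_Icc.prod (isCompact_Icc.prod isCompact_Icc)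

lemma bounded_orbit {s : ℝ} {i : ℕ → Bool} {p : ℝ × ℝ × ℝ}
    (h : ∀ k, (F s)^[T i k] p ∈ Box (i k)) : ∃ M, ∀ n, ((F s)^[n] p).2.2 ≤ M := by
  have hK : IsCompact (⋃ j ∈ Finset.range 14, (F s)^[j] '' (Box false ∪ Box true)) :=
    (Finset.range 14).isCompact_biUnion fun j _ =>
      ((isCompact_Box false).union (isCompact_Box true)).image ((continuous_F s).iterate j)
  obtain ⟨M, hM⟩ := hK.bddAbove_image (f := fun q : ℝ × ℝ × ℝ => q.2.2)
    (by fun_prop)
  refine ⟨M, fun n => ?_⟩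
  obtain ⟨k, j, hn, hj⟩ := exists_block i n
  apply hM
  refine ⟨_, ?_, rfl⟩
  rw [mem_iUnion₂]
  refine ⟨j, ?_, (F s)^[T i k] p, ?_, ?_⟩
  · have : tau (i k) ≤ 14 := by cases i k <;> decide
    rw [Finset.mem_range]
    omega
  · have := h k
    cases hb : i k
    · rw [hb] at this; exact Or.inl this
    · rw [hb] at this; exact Or.inr this
  · rw [hn, Function.iterate_add_apply]

theorem main : ∃ α δ C : ℝ, 0 < α ∧ 0 < δ ∧ 0 < C ∧ ∃ x : ℕ → ℝ, (∀ n, 0 < x n) ∧
    (∀ n, x (n + 3) = (α + x (n + 2) + δ * x n) / (x (n + 2) + C * x (n + 1))) ∧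
    (∃ M, ∀ n, x n ≤ M) ∧
    ∀ p : ℕ → ℝ, (∃ K, 1 ≤ K ∧ ∀ n, p (n + K) = p n) →
      ¬ Tendsto (fun n => x n - p n) atTop (𝓝 0) := by
  obtain ⟨s, hs⟩ : ∃ s : ℝ, 200000 ≤ s := ⟨200000, le_rfl⟩
  obtain ⟨p, hp⟩ := exists_orbit hs itin
  have hs0 : 0 < s := by linarith
  refine ⟨exp (-(10 * s)), exp s, exp (37 / 20 * s), exp_pos _, exp_pos _, exp_pos _,
    fun n => exp (s * ((F s)^[n] p).2.2), fun n => exp_pos _, fun n => ?_, ?_, ?_⟩
  · have e1 : ((F s)^[n + 1] p).2.2 = ((F s)^[n] p).2.1 := by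
      rw [Function.iterate_succ_apply']; rfl
    have e2 : ((F s)^[n + 2] p).2.2 = ((F s)^[n] p).1 := by
      rw [Function.iterate_succ_apply', Function.iterate_succ_apply']; rfl
    have e3 : ((F s)^[n + 3] p).2.2 =
        phi s ((F s)^[n] p).1 ((F s)^[n] p).2.1 ((F s)^[n] p).2.2 := by
      rw [Function.iterate_succ_apply', Function.iterate_succ_apply',
        Function.iterate_succ_apply']; rfl
    simp only [e1, e2, e3]
    exact exp_phi hs0 _ _ _
  · obtain ⟨M, hM⟩ := bounded_orbit hp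
    exact ⟨exp (s * M), fun n => exp_le_exp.mpr (mul_le_mul_of_nonneg_left (hM n) hs0.le)⟩
  · rintro q ⟨K, hK1, hK⟩ hlim
    set x : ℕ → ℝ := fun n => exp (s * ((F s)^[n] p).2.2) with hx
    have hqK : ∀ r n, q (n + r * K) = q n := by
      intro r
      induction r with
      | zero => intro n; simp
      | succ r ih => intro n; rw [show n + (r + 1) * K = (n + r * K) + K by ring, hK, ih]
    have hlim2 : Tendsto (fun n => x (n + 14 * K) - q (n + 14 * K)) atTop (𝓝 0) :=
      (tendsto_add_atTop_iff_nat (f := fun n => x n - q n) (14 * K)).mpr hlim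
    have hlim3 : Tendsto (fun n => x n - x (n + 14 * K)) atTop (𝓝 0) := by
      have := hlim.sub hlim2
      rw [sub_zero] at this
      refine this.congr fun n => ?_
      rw [hqK]; ring
    have hc : 0 < exp (s * (1627 / 1000)) - exp (s * (323 / 200)) := by
      have : exp (s * (323 / 200)) < exp (s * (1627 / 1000)) :=
        exp_lt_exp.mpr (by nlinarith)
      linarith
    obtain ⟨N, hN⟩ := eventually_atTop.mp (hlim3.eventually_lt_const hc)
    set m := max (max K 2) N with hm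
    have hm1 : K ≤ m := (le_max_left _ _).trans (le_max_left _ _)
    have hm2 : 2 ≤ m := (le_max_right _ _).trans (le_max_left _ _)
    have hm3 : N ≤ m := le_max_right _ _
    have hT : N ≤ T itin (m ^ 2) + 1 := by
      have := le_T itin (m ^ 2)
      nlinarith
    have hlt := hN _ hT
    have b1 := hp (m ^ 2)
    rw [itin_sq hm2] at b1
    have b2 := hp (m ^ 2 + 1 + (2 * K - 2))
    rw [itin_gap (m := m) (k := m ^ 2 + 1 + (2 * K - 2)) (by omega)
      (by have : (m + 1) ^ 2 = m ^ 2 + 2 * m + 1 := by ring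
          omega), T_sq_add hm2 _ (by omega)] at b2
    have c1 : 1627 / 1000 ≤ ((F s)^[T itin (m ^ 2) + 1] p).2.2 := by
      rw [Function.iterate_succ_apply']
      have := b1.2.1.1
      simp only [lo, if_true] at this
      exact this
    have c2 : ((F s)^[T itin (m ^ 2) + 1 + 14 * K] p).2.2 ≤ 323 / 200 := by
      rw [show T itin (m ^ 2) + 1 + 14 * K = (T itin (m ^ 2) + 14 + 7 * (2 * K - 2)) + 1 by omega,
        Function.iterate_succ_apply']
      have := b2.2.1.2
      simp only [hi, Bool.false_eq_true, if_false] at this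
      exact this
    have d1 : exp (s * (1627 / 1000)) ≤ x (T itin (m ^ 2) + 1) :=
      exp_le_exp.mpr (mul_le_mul_of_nonneg_left c1 hs0.le)
    have d2 : x (T itin (m ^ 2) + 1 + 14 * K) ≤ exp (s * (323 / 200)) :=
      exp_le_exp.mpr (mul_le_mul_of_nonneg_left c2 hs0.le)
    linarith

end Pool.Agent.MP_f96ee4_an
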