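import Mathlib

/-!
The recurrence `x_{n+1} = (α + x_n + δ x_{n-2}) / (x_n + C x_{n-1})` in logarithmic coordinates
`x = exp (s y)`, with `δ = exp s`, `C = exp (37 s / 20)`, `α = exp (-10 s)` and `s` large.
-/

open Real

namespace Pool.Agent.MP_f96ee4_an

/-- The recurrence in logarithmic coordinates. -/
noncomputable def phi (s X Y Z : ℝ) : ℝ :=
  (log (exp (-(10 * s)) + exp (s * X) + exp (s * (1 + Z))) -
    log (exp (s * X) + exp (s * (37 / 20 + Y)))) / s

lemma exp_phi {s : ℝ} (hs : 0 < s) (X Y Z : ℝ) :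
    exp (s * phi s X Y Z) = (exp (-(10 * s)) + exp (s * X) + exp s * exp (s * Z)) /
      (exp (s * X) + exp (37 / 20 * s) * exp (s * Y)) := by
  have h : s * phi s X Y Z = log (exp (-(10 * s)) + exp (s * X) + exp (s * (1 + Z))) -
      log (exp (s * X) + exp (s * (37 / 20 + Y))) := by
    rw [phi, mul_div_cancel₀ _ hs.ne']
  rw [h, exp_sub, exp_log (by positivity), exp_log (by positivity)]
  rw [← exp_add, ← exp_add]
  congr 4 <;> ring_nf

lemma phi_bound {s : ℝ} (hs : 200000 ≤ s) {X Y Z : ℝ} (h : -10 ≤ max X (1 + Z)) :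
    max X (1 + Z) - max X (37 / 20 + Y) - 1 / 100000 ≤ phi s X Y Z ∧
      phi s X Y Z ≤ max X (1 + Z) - max X (37 / 20 + Y) + 1 / 100000 := by
  have hs0 : 0 < s := by linarith
  set M := max X (1 + Z) with hM
  set M' := max X (37 / 20 + Y) with hM'
  have h3 : log 3 ≤ 2 := by
    have := log_le_sub_one_of_pos (show (0 : ℝ) < 3 by norm_num)
    linarith
  have h2 : log 2 ≤ 2 := by
    have := log_le_sub_one_of_pos (show (0 : ℝ) < 2 by norm_num)
    linarith
  have a1 : exp (-(10 * s)) ≤ exp (s * M) := exp_le_exp.mpr (by nlinarith)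
  have a2 : exp (s * X) ≤ exp (s * M) :=
    exp_le_exp.mpr (mul_le_mul_of_nonneg_left (le_max_left _ _) hs0.le)
  have a3 : exp (s * (1 + Z)) ≤ exp (s * M) :=
    exp_le_exp.mpr (mul_le_mul_of_nonneg_left (le_max_right _ _) hs0.le)
  have b2 : exp (s * X) ≤ exp (s * M') :=
    exp_le_exp.mpr (mul_le_mul_of_nonneg_left (le_max_left _ _) hs0.le)
  have b3 : exp (s * (37 / 20 + Y)) ≤ exp (s * M') :=
    exp_le_exp.mpr (mul_le_mul_of_nonneg_left (le_max_right _ _) hs0.le)
  have p1 := exp_pos (-(10 * s))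
  have p2 := exp_pos (s * X)
  have p3 := exp_pos (s * (1 + Z))
  have p4 := exp_pos (s * (37 / 20 + Y))
  have u1 : log (exp (-(10 * s)) + exp (s * X) + exp (s * (1 + Z))) ≤ log 3 + s * M := by
    rw [← log_exp (s * M), ← log_mul (by norm_num) (exp_pos _).ne']
    exact log_le_log (by positivity) (by linarith)
  have l1 : s * M ≤ log (exp (-(10 * s)) + exp (s * X) + exp (s * (1 + Z))) := by
    rw [← log_exp (s * M)]
    apply log_le_log (exp_pos _)
    rcases max_choice X (1 + Z) with hm | hm
    · rw [hM, hm]; linarith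
    · rw [hM, hm]; linarith
  have u2 : log (exp (s * X) + exp (s * (37 / 20 + Y))) ≤ log 2 + s * M' := by
    rw [← log_exp (s * M'), ← log_mul (by norm_num) (exp_pos _).ne']
    exact log_le_log (by positivity) (by linarith)
  have l2 : s * M' ≤ log (exp (s * X) + exp (s * (37 / 20 + Y))) := by
    rw [← log_exp (s * M')]
    apply log_le_log (exp_pos _)
    rcases max_choice X (37 / 20 + Y) with hm | hm
    · rw [hM', hm]; linarith
    · rw [hM', hm]; linarith
  rw [phi]
  constructor
  · rw [le_div_iff₀ hs0]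
    have : (M - M' - 1 / 100000) * s = s * M - s * M' - s / 100000 := by ring
    rw [this]
    linarith
  · rw [div_le_iff₀ hs0]
    have : (M - M' + 1 / 100000) * s = s * M - s * M' + s / 100000 := by ring
    rw [this]
    linarith

lemma continuous_phi {s : ℝ} :
    Continuous fun p : ℝ × ℝ × ℝ => phi s p.1 p.2.1 p.2.2 := by
  unfold phi
  apply Continuous.div_const
  apply Continuous.sub
  · apply Continuous.log
    · fun_prop
    · intro p; positivity
  · apply Continuous.log
    · fun_prop
    · intro p; positivity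

end Pool.Agent.MP_f96ee4_an
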