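import Pool.Agent.MP_f96ee4_an.Phi

/-!
Seven and fourteen steps of the map from the two boxes.
-/

open Real

namespace Pool.Agent.MP_f96ee4_an

/-- One step of the recurrence on states `(y_{n+2}, y_{n+1}, y_n)`. -/
noncomputable def F (s : ℝ) (p : ℝ × ℝ × ℝ) : ℝ × ℝ × ℝ := (phi s p.1 p.2.1 p.2.2, p.1, p.2.1)

lemma continuous_F (s : ℝ) : Continuous (F s) := by
  unfold F
  exact continuous_phi.prodMk (by fun_prop)

/-- One step: `Z`-branch over `Y`-branch. -/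
lemma stepZY {s : ℝ} (hs : 200000 ≤ s) {X Y Z : ℝ} (h0 : -11 ≤ Z) (h1 : X ≤ 1 + Z)
    (h2 : X ≤ 37 / 20 + Y) :
    Z - Y - 17 / 20 - 1 / 100000 ≤ phi s X Y Z ∧ phi s X Y Z ≤ Z - Y - 17 / 20 + 1 / 100000 := by
  have hb := phi_bound (Y := Y) hs (show -10 ≤ max X (1 + Z) from le_max_of_le_right (by linarith))
  rw [max_eq_right h1, max_eq_right h2] at hb
  constructor <;> linarith [hb.1, hb.2]

/-- One step: `Z`-branch over `X`-branch. -/
lemma stepZX {s : ℝ} (hs : 200000 ≤ s) {X Y Z : ℝ} (h0 : -11 ≤ Z) (h1 : X ≤ 1 + Z)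
    (h2 : 37 / 20 + Y ≤ X) :
    1 + Z - X - 1 / 100000 ≤ phi s X Y Z ∧ phi s X Y Z ≤ 1 + Z - X + 1 / 100000 := by
  have hb := phi_bound (Y := Y) hs (show -10 ≤ max X (1 + Z) from le_max_of_le_right (by linarith))
  rw [max_eq_right h1, max_eq_left h2] at hb
  constructor <;> linarith [hb.1, hb.2]

/-- One step: `X`-branch over `Y`-branch. -/
lemma stepXY {s : ℝ} (hs : 200000 ≤ s) {X Y Z : ℝ} (h0 : -10 ≤ X) (h1 : 1 + Z ≤ X)
    (h2 : X ≤ 37 / 20 + Y) :
    X - Y - 37 / 20 - 1 / 100000 ≤ phi s X Y Z ∧ phi s X Y Z ≤ X - Y - 37 / 20 + 1 / 100000 := by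
  have hb := phi_bound (Y := Y) hs (show -10 ≤ max X (1 + Z) from le_max_of_le_left h0)
  rw [max_eq_left h1, max_eq_right h2] at hb
  constructor <;> linarith [hb.1, hb.2]

/-- One step: `X`-branch over `X`-branch. -/
lemma stepXX {s : ℝ} (hs : 200000 ≤ s) {X Y Z : ℝ} (h0 : -10 ≤ X) (h1 : 1 + Z ≤ X)
    (h2 : 37 / 20 + Y ≤ X) :
    - (1 / 100000) ≤ phi s X Y Z ∧ phi s X Y Z ≤ 1 / 100000 := by
  have hb := phi_bound (Y := Y) hs (show -10 ≤ max X (1 + Z) from le_max_of_le_left h0)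
  rw [max_eq_left h1, max_eq_left h2] at hb
  constructor <;> linarith [hb.1, hb.2]

/-- Seven steps from the box `A`. -/
lemma seven {s : ℝ} (hs : 200000 ≤ s) {X u w : ℝ} (hX : |X| ≤ 1 / 100000)
    (hu : 79 / 50 ≤ u) (hu' : u ≤ 323 / 200) (hw : -(9 / 20) ≤ w) (hw' : w ≤ -(3 / 10)) :
    ∃ X' u' w', (F s)^[7] (X, u, w) = (X', u', w') ∧ |X'| ≤ 1 / 100000 ∧
      |u' - (32 / 5 - 3 * u)| ≤ 1 / 1000 ∧ -(9 / 20) ≤ w' ∧ w' ≤ -(3 / 10) := by
  obtain ⟨hX1, hX2⟩ := abs_le.mp hX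
  obtain ⟨a1, b1⟩ := stepZY hs (X := X) (Y := u) (Z := w) (by linarith) (by linarith) (by linarith)
  set v1 := phi s X u w
  obtain ⟨a2, b2⟩ := stepZY hs (X := v1) (Y := X) (Z := u) (by linarith) (by linarith) (by linarith)
  set v2 := phi s v1 X u
  obtain ⟨a3, b3⟩ := stepZX hs (X := v2) (Y := v1) (Z := X) (by linarith) (by linarith)
    (by linarith)
  set v3 := phi s v2 v1 X
  obtain ⟨a4, b4⟩ := stepXY hs (X := v3) (Y := v2) (Z := v1) (by linarith) (by linarith)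
    (by linarith)
  set v4 := phi s v3 v2 v1
  obtain ⟨a5, b5⟩ := stepZY hs (X := v4) (Y := v3) (Z := v2) (by linarith) (by linarith)
    (by linarith)
  set v5 := phi s v4 v3 v2
  obtain ⟨a6, b6⟩ := stepZX hs (X := v5) (Y := v4) (Z := v3) (by linarith) (by linarith)
    (by linarith)
  set v6 := phi s v5 v4 v3
  obtain ⟨a7, b7⟩ := stepXX hs (X := v6) (Y := v5) (Z := v4) (by linarith) (by linarith)
    (by linarith)
  set v7 := phi s v6 v5 v4
  refine ⟨v7, v6, v5, rfl, abs_le.mpr ⟨a7, b7⟩, abs_le.mpr ⟨by linarith, by linarith⟩,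
    by linarith, by linarith⟩

/-- Fourteen steps from the box `J`. -/
lemma fourteen {s : ℝ} (hs : 200000 ≤ s) {X u w : ℝ} (hX : |X| ≤ 1 / 100000)
    (hu : 1627 / 1000 ≤ u) (hu' : u ≤ 817 / 500) (hw : -(9 / 20) ≤ w) (hw' : w ≤ -(3 / 10)) :
    ∃ X' u' w', (F s)^[14] (X, u, w) = (X', u', w') ∧ |X'| ≤ 1 / 100000 ∧
      |u' - (277 / 10 - 16 * u)| ≤ 1 / 100 ∧ -(9 / 20) ≤ w' ∧ w' ≤ -(3 / 10) := by
  obtain ⟨hX1, hX2⟩ := abs_le.mp hX
  obtain ⟨a1, b1⟩ := stepZY hs (X := X) (Y := u) (Z := w) (by linarith) (by linarith) (by linarith)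
  set v1 := phi s X u w
  obtain ⟨a2, b2⟩ := stepZY hs (X := v1) (Y := X) (Z := u) (by linarith) (by linarith) (by linarith)
  set v2 := phi s v1 X u
  obtain ⟨a3, b3⟩ := stepZX hs (X := v2) (Y := v1) (Z := X) (by linarith) (by linarith)
    (by linarith)
  set v3 := phi s v2 v1 X
  obtain ⟨a4, b4⟩ := stepXY hs (X := v3) (Y := v2) (Z := v1) (by linarith) (by linarith)
    (by linarith)
  set v4 := phi s v3 v2 v1
  obtain ⟨a5, b5⟩ := stepZY hs (X := v4) (Y := v3) (Z := v2) (by linarith) (by linarith)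
    (by linarith)
  set v5 := phi s v4 v3 v2
  obtain ⟨a6, b6⟩ := stepZX hs (X := v5) (Y := v4) (Z := v3) (by linarith) (by linarith)
    (by linarith)
  set v6 := phi s v5 v4 v3
  obtain ⟨a7, b7⟩ := stepXY hs (X := v6) (Y := v5) (Z := v4) (by linarith) (by linarith)
    (by linarith)
  set v7 := phi s v6 v5 v4
  have e7 : (F s)^[7] (X, u, w) = (v7, v6, v5) := rfl
  clear_value v7 v6 v5 v4 v3 v2 v1
  obtain ⟨a8, b8⟩ := stepZY hs (X := v7) (Y := v6) (Z := v5) (by linarith) (by linarith)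
    (by linarith)
  set v8 := phi s v7 v6 v5
  obtain ⟨a9, b9⟩ := stepZY hs (X := v8) (Y := v7) (Z := v6) (by linarith) (by linarith)
    (by linarith)
  set v9 := phi s v8 v7 v6
  obtain ⟨a10, b10⟩ := stepZX hs (X := v9) (Y := v8) (Z := v7) (by linarith) (by linarith)
    (by linarith)
  set v10 := phi s v9 v8 v7
  obtain ⟨a11, b11⟩ := stepXY hs (X := v10) (Y := v9) (Z := v8) (by linarith) (by linarith)
    (by linarith)
  set v11 := phi s v10 v9 v8
  obtain ⟨a12, b12⟩ := stepZY hs (X := v11) (Y := v10) (Z := v9) (by linarith) (by linarith)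
    (by linarith)
  set v12 := phi s v11 v10 v9
  obtain ⟨a13, b13⟩ := stepZX hs (X := v12) (Y := v11) (Z := v10) (by linarith) (by linarith)
    (by linarith)
  set v13 := phi s v12 v11 v10
  obtain ⟨a14, b14⟩ := stepXX hs (X := v13) (Y := v12) (Z := v11) (by linarith) (by linarith)
    (by linarith)
  set v14 := phi s v13 v12 v11
  have e14 : (F s)^[14] (X, u, w) = (v14, v13, v12) := by
    rw [show (14 : ℕ) = 7 + 7 from rfl, Function.iterate_add_apply, e7]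
    rfl
  refine ⟨v14, v13, v12, e14, abs_le.mpr ⟨a14, b14⟩, abs_le.mpr ⟨by linarith, by linarith⟩,
    by linarith, by linarith⟩

end Pool.Agent.MP_f96ee4_an
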